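import Mathlib

set_option autoImplicit false

namespace Pool.Agent.Results.MP_8e2370_an.Counter

open Complex Finset

/-- `R(z) = ∑ α l / (z - p l)`. -/
noncomputable def R {k : ℕ} (p α : Fin k → ℝ) (z : ℂ) : ℂ := ∑ l, (α l : ℂ) / (z - p l)

/-- The open upper half of the circle with diameter `[a, b]`. -/
def halfCircle (a b : ℝ) : Set ℂ := {z | ‖z - ((a + b) / 2 : ℝ)‖ = (b - a) / 2 ∧ 0 < z.im}

theorem tri (K : Set ℂ) (hK : Convex ℝ K) (a b c w : ℂ) (ha : a ∈ K) (hb : b ∈ K) (hc : c ∈ K)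
    (D : ℝ) (hD : D = (b.re - a.re) * (c.im - a.im) - (c.re - a.re) * (b.im - a.im)) (h0 : D ≠ 0)
    (h1 : 0 < ((w.re - a.re) * (c.im - a.im) - (c.re - a.re) * (w.im - a.im)) / D)
    (h2 : 0 < ((b.re - a.re) * (w.im - a.im) - (w.re - a.re) * (b.im - a.im)) / D)
    (h3 : ((w.re - a.re) * (c.im - a.im) - (c.re - a.re) * (w.im - a.im)) / D +
      ((b.re - a.re) * (w.im - a.im) - (w.re - a.re) * (b.im - a.im)) / D < 1) :
    w ∈ interior K := by
  let l1 : ℂ → ℝ := fun z => ((z.re - a.re) * (c.im - a.im) - (c.re - a.re) * (z.im - a.im)) / D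
  let l2 : ℂ → ℝ := fun z => ((b.re - a.re) * (z.im - a.im) - (z.re - a.re) * (b.im - a.im)) / D
  have c1 : Continuous l1 := by fun_prop
  have c2 : Continuous l2 := by fun_prop
  refine mem_interior.2 ⟨{z | 0 < l1 z} ∩ ({z | 0 < l2 z} ∩ {z | l1 z + l2 z < 1}), ?_,
    (isOpen_lt continuous_const c1).inter ((isOpen_lt continuous_const c2).inter
      (isOpen_lt (c1.add c2) continuous_const)), h1, h2, h3⟩
  rintro z ⟨g1, g2, g3⟩
  simp only [Set.mem_setOf_eq] at g1 g2 g3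
  have := hK.sum_mem (t := (univ : Finset (Fin 3))) (w := ![1 - l1 z - l2 z, l1 z, l2 z])
    (z := ![a, b, c]) (by intro i _; fin_cases i <;> simp <;> linarith)
    (by simp [Fin.sum_univ_three]; ring) (by intro i _; fin_cases i <;> simpa)
  convert this using 1
  apply Complex.ext
  · simp [Fin.sum_univ_three, l1, l2]; field_simp; rw [hD]; ring
  · simp [Fin.sum_univ_three, l1, l2]; field_simp; rw [hD]; ring

theorem val (x y u v : ℝ) (hy : 0 < y) (h : x ^ 2 + y ^ 2 = 1)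
    (hu : u = (x + 4 / 3) / ((x + 4 / 3) ^ 2 + y ^ 2) + (x + 1) / ((x + 1) ^ 2 + y ^ 2) +
      (x - 1) / ((x - 1) ^ 2 + y ^ 2))
    (hv : v = -(y / ((x + 4 / 3) ^ 2 + y ^ 2) + y / ((x + 1) ^ 2 + y ^ 2) +
      y / ((x - 1) ^ 2 + y ^ 2))) :
    (⟨u, v⟩ : ℂ) ∈ R ![-4 / 3, -1, 1] ![1, 1, 1] '' halfCircle (-1) 1 := by
  refine ⟨⟨x, y⟩, ⟨?_, hy⟩, ?_⟩
  · rw [Complex.norm_def, Complex.normSq_apply]
    simp only [neg_add_cancel, zero_div, ofReal_zero, sub_zero]
    rw [show x * x + y * y = 1 by linarith]; norm_num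
  · apply Complex.ext
    · simp [R, Fin.sum_univ_three, Complex.normSq_apply, hu]; ring
    · simp [R, Fin.sum_univ_three, Complex.normSq_apply, hv]; ring

theorem result : ∃ (k : ℕ) (p α : Fin k → ℝ) (j : ℕ) (h : j + 1 < k), 3 ≤ k ∧ StrictMono p ∧
    (∀ l, 0 < α l) ∧ ¬ ∃ K : Set ℂ, IsClosed K ∧ Convex ℝ K ∧
      frontier K = R p α '' halfCircle (p ⟨j, by omega⟩) (p ⟨j + 1, h⟩) := by
  refine ⟨3, ![-4 / 3, -1, 1], ![1, 1, 1], 1, by norm_num, le_rfl, ?_, ?_, ?_⟩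
  · refine Fin.strictMono_iff_lt_succ.2 fun i => ?_
    fin_cases i <;> simp <;> norm_num
  · intro l; fin_cases l <;> norm_num
  rintro ⟨K, h1, h2, h3⟩
  change frontier K = R ![-4 / 3, -1, 1] ![1, 1, 1] '' halfCircle (-1) 1 at h3
  have a := val (3 / 5) (4 / 5) (87 / 197) (-1129 / 788) (by norm_num) (by norm_num)
    (by norm_num) (by norm_num)
  have b := val 0 1 (12 / 25) (-34 / 25) (by norm_num) (by norm_num) (by norm_num) (by norm_num)
  have c := val (-4 / 5) (3 / 5) (24 / 29) (-226 / 87) (by norm_num) (by norm_num)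
    (by norm_num) (by norm_num)
  have w := val (-3 / 5) (4 / 5) (33 / 53) (-409 / 212) (by norm_num) (by norm_num)
    (by norm_num) (by norm_num)
  rw [← h3] at a b c w
  exact w.2 (tri K h2 _ _ _ _ (h1.frontier_subset a) (h1.frontier_subset b) (h1.frontier_subset c)
    _ rfl (by norm_num) (by norm_num) (by norm_num) (by norm_num))

end Pool.Agent.Results.MP_8e2370_an.Counter
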